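import Pool.Agent.MTF.StmtsB
import Pool.Agent.Helper46_MT.Final
import Pool.Agent.Helper78_MTA.Uex

/-! MTF, module MAF: the Hodge side of the main theorem from the modules COD, CDL, HLS, LVD, GSP,
SPN. -/

set_option autoImplicit false

namespace Pool.Agent.MTF.H98

open Matrix Pool.Agent.MT100 Pool.Agent.MT100G Pool.Agent.MT100A Pool.Agent.MT100D
  Pool.Agent.Helper78_MT Pool.Agent.Helper46_MT

universe u

variable {d : Type} [Fintype d] [DecidableEq d]

/-- powers of an infinitesimal isometry -/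
theorem pow_skew {Ψ X : Matrix d d ℂ} (h : Xᵀ * Ψ + Ψ * X = 0) (t : ℕ) :
    (X ^ t)ᵀ * Ψ = (-1 : ℂ) ^ t • (Ψ * X ^ t) := by
  have h1 : Xᵀ * Ψ = -(Ψ * X) := eq_neg_of_add_eq_zero_left h
  induction t with
  | zero => simp
  | succ t ih =>
    rw [pow_succ, transpose_mul, Matrix.mul_assoc, ih, Matrix.mul_smul, ← Matrix.mul_assoc, h1,
      Matrix.neg_mul, Matrix.mul_assoc, ← pow_succ', ← pow_succ, pow_succ (-1 : ℂ) t, mul_neg_one,
      neg_smul, smul_neg]

/-- the exponential of a nilpotent infinitesimal isometry is an isometry -/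
theorem ue_form {Ψ X : Matrix d d ℂ} (h : Xᵀ * Ψ + Ψ * X = 0) (hX : IsNilpotent X) (s : ℂ) :
    (ue X s)ᵀ * Ψ * ue X s = Ψ := by
  have h1 : (ue X s)ᵀ * Ψ = Ψ * ue X (-s) := by
    unfold ue
    rw [transpose_sum, Finset.sum_mul, Finset.mul_sum]
    apply Finset.sum_congr rfl
    intro t _
    rw [transpose_smul, Matrix.smul_mul, pow_skew h, smul_smul, Matrix.mul_smul, neg_pow s]
    congr 1
    ring
  rw [h1, Matrix.mul_assoc, H78.ue_inv' hX, Matrix.mul_one]

/-- **MAF** -/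
theorem maf (hcod : CodStmt) (hcdl : CdlStmt) (hhls : HlsStmt) (hlvd : LvdStmt)
    (hgsp : GspStmt.{u}) (hspn : SpnStmt) : MafStmt.{u} := by
  intro d _ _ F w lev hw P hP δ c hc κ hκ hlt
  obtain ⟨m, hm⟩ : ∃ m, m = δ + (if F.N = 0 then 0 else 1) := ⟨_, rfl⟩
  rw [← hm] at hlt
  obtain ⟨n0, h0⟩ := hcod d F w lev hw.pos P hP δ c hc m hm.ge
  obtain ⟨n1, h1⟩ := hlvd d F w lev P hP
  refine ⟨max n0 n1, fun n hn E V hF hD K _ _ => ?_⟩
  have hn0 : n0 ≤ n := le_trans (le_max_left _ _) hn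
  have hn1 : n1 ≤ n := le_trans (le_max_right _ _) hn
  obtain ⟨hV, hinv, hfil⟩ := hF
  have hE := det_ne hV
  have hEs : Eᵀ = -E := by
    have := hV.symm
    rwa [Odd.neg_one_pow hw, neg_one_smul] at this
  refine hgsp d w E V hw hV (fun I hG hI X hX => ?_) K
  have hL := hhls d w E V hw hV I hG hI
  have hfr : ∀ p, Module.finrank ℂ (V p) ≤ κ := by
    intro p
    rw [h1 n hn1 E V hV hfil p]
    exact hκ p
  have hdep : Dep (E.map (algebraMap ℚ ℂ)) V (Ul I E) m := by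
    refine hspn d (E.map (algebraMap ℚ ℂ)) (skew_map hEs) (det_map hE) (Ul I E ⊔ F0 V) m ?_
    intro Y hY
    refine h0 n hn0 E V hV hfil I hG hI Y (fun j => ?_)
    refine ⟨(hY j).2, fun s => hD _ ?_⟩
    exact ue_form (hY j).1 (hY j).2 s
  exact hcdl d w (E.map (algebraMap ℚ ℂ)) V (Ul I E) hL κ m hfr hlt hdep hX

end Pool.Agent.MTF.H98
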